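import Pool.Agent.U481.HW.Stm

/-!
Project HW, package POS: admissible weights are positive almost everywhere (helper464).
-/

set_option autoImplicit false

open MeasureTheory Filter Topology Set
open scoped ENNReal NNReal

namespace Pool.Agent.U464.HW

open Pool.Dav Pool.Agent.U481.HW

lemma hil_eq {f : ℝ → ℂ} {x : ℝ} {v : ℂ} (h : HasHilbert f x v) : hilbert f x = v := by
  unfold hilbert
  have hex : ∃ v, HasHilbert f x v := ⟨v, h⟩
  rw [dif_pos hex]
  exact tendsto_nhds_unique hex.choose_spec h

/-- outside of the support the principal value is the plain integral -/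
lemma has_of_zero {f : ℝ → ℂ} {x δ : ℝ} (hδ : 0 < δ) (h0 : ∀ y, |x - y| < δ → f y = 0) :
    HasHilbert f x ((1 / (Real.pi : ℂ)) * ∫ y, f y / ((x : ℂ) - (y : ℂ))) := by
  unfold HasHilbert
  refine tendsto_const_nhds.congr' ?_
  filter_upwards [Ioo_mem_nhdsGT hδ] with ε hε
  unfold truncH
  congr 1
  symm
  refine setIntegral_eq_integral_of_forall_compl_eq_zero fun y hy => ?_
  have h1 : |x - y| ≤ ε := not_lt.1 hy
  rw [h0 y (by linarith [hε.2]), zero_div]

/-- the indicator function of `E` -/
noncomputable def ph (E : Set ℝ) : ℝ → ℝ := E.indicator fun _ => 1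

lemma ph_nonneg (E : Set ℝ) (y : ℝ) : 0 ≤ ph E y := indicator_nonneg (fun _ _ => zero_le_one) y

lemma ph_int {E : Set ℝ} (hE : MeasurableSet E) {a b : ℝ} (hs : E ⊆ Ioo a b) :
    Integrable (ph E) := by
  have hfin : volume E ≠ ⊤ := ne_top_of_le_ne_top (by simp) (measure_mono hs)
  exact (integrable_indicator_iff hE).2 (integrableOn_const hfin)

lemma half {E : Set ℝ} (hE : MeasurableSet E) {a b : ℝ} (hab : a ≤ b) (hs : E ⊆ Ioo a b) :
    ∃ c ∈ Icc a b, ∫ y in Iic c, ph E y = (∫ y, ph E y) / 2 := by
  have hi := ph_int hE hs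
  set m := ∫ y, ph E y with hm
  have hm0 : 0 ≤ m := integral_nonneg fun y => indicator_nonneg (fun _ _ => zero_le_one) y
  have ha : ∫ y in Iic a, ph E y = 0 := by
    refine setIntegral_eq_zero_of_forall_eq_zero fun y hy => ?_
    exact indicator_of_notMem (fun h => absurd (hs h).1 (not_lt.2 hy)) _
  have hb : ∫ y in Iic b, ph E y = m := by
    refine setIntegral_eq_integral_of_forall_compl_eq_zero fun y hy => ?_
    exact indicator_of_notMem (fun h => hy (hs h).2.le) _
  have hc : Continuous fun t => ∫ y in Iic t, ph E y := by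
    have e : (fun t => ∫ y in Iic t, ph E y) = fun t => ∫ y in a..t, ph E y := by
      funext t
      have := intervalIntegral.integral_Iic_sub_Iic (f := ph E) (μ := volume) (a := a) (b := t)
        hi.integrableOn hi.integrableOn
      rw [ha, sub_zero] at this
      exact this
    rw [e]
    exact intervalIntegral.continuous_primitive (fun _ _ => hi.intervalIntegrable) a
  have h1 := intermediate_value_Icc hab hc.continuousOn
  obtain ⟨c, hc1, hc2⟩ := h1 (show m / 2 ∈ Icc (∫ y in Iic a, ph E y) (∫ y in Iic b, ph E y) by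
    rw [ha, hb]
    constructor <;> linarith)
  exact ⟨c, hc1, hc2⟩

lemma out {p : ℝ} (hp : 1 < p) {U : ℝ → ℝ≥0} (hU : IsWeight U) (hA : Admissible p U) {a b : ℝ}
    (hab : a ≤ b) {E : Set ℝ} (hE : MeasurableSet E) (hs : E ⊆ Ioo a b) (hE0 : volume E ≠ 0)
    (hz : ∀ x ∈ E, U x = 0) : ∀ᵐ x, x ∉ Icc a b → U x = 0 := by
  obtain ⟨C, hC, hA⟩ := hA
  have hi := ph_int hE hs
  obtain ⟨c, hc, hc2⟩ := half hE hab hs
  set fr : ℝ → ℝ := fun y => 2 * (Iic c).indicator (ph E) y - ph E y with hfr
  have hii : Integrable ((Iic c).indicator (ph E)) := hi.indicator measurableSet_Iic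
  have hfri : Integrable fr := (hii.const_mul 2).sub hi
  have hfr0 : ∫ y, fr y = 0 := by
    rw [hfr, integral_sub (hii.const_mul 2) hi, integral_const_mul,
      integral_indicator measurableSet_Iic, hc2]
    ring
  have hfrz : ∀ y, y ∉ E → fr y = 0 := by
    intro y hy
    have h1 : ph E y = 0 := indicator_of_notMem hy _
    simp only [hfr, h1, sub_zero]
    by_cases h : y ∈ Iic c
    · rw [indicator_of_mem h, h1, mul_zero]
    · rw [indicator_of_notMem h, mul_zero]
  have hfrm : ∀ y, fr y * (y - c) = -(|y - c| * ph E y) := by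
    intro y
    by_cases h : y ∈ Iic c
    · have h' : y ≤ c := h
      simp only [hfr, indicator_of_mem h]
      rw [abs_of_nonpos (by linarith)]
      ring
    · have h' : c < y := not_le.1 h
      simp only [hfr, indicator_of_notMem h]
      rw [abs_of_pos (by linarith)]
      ring
  set f : ℝ → ℂ := fun y => (fr y : ℂ) with hf
  have hfi : Integrable f := hfri.ofReal
  have hf0 : ∫ y, f y = 0 := by
    rw [hf, integral_complex_ofReal, hfr0]
    simp
  have hmain := hA f hfi hf0
  have hrhs : ∫⁻ x, ‖f x‖ₑ ^ p * (U x : ℝ≥0∞) = 0 := by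
    rw [← lintegral_zero (μ := (volume : Measure ℝ))]
    refine lintegral_congr fun x => ?_
    by_cases h : x ∈ E
    · rw [hz x h]
      simp
    · have : f x = 0 := by simp [hf, hfrz x h]
      rw [this, enorm_zero, ENNReal.zero_rpow_of_pos (by linarith), zero_mul]
  rw [hrhs, mul_zero] at hmain
  have hlhs : ∫⁻ x, ‖hilbert f x‖ₑ ^ p * (U x : ℝ≥0∞) = 0 := le_antisymm hmain zero_le
  -- the constant
  set M : ℝ := ∫ y, |y - c| * ph E y with hM
  have hMi : Integrable fun y => |y - c| * ph E y := by
    refine (hi.const_mul (b - a)).mono' ?_ (ae_of_all _ fun y => ?_)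
    · exact ((continuous_abs.comp (continuous_id.sub continuous_const)).aestronglyMeasurable).mul
        hi.aestronglyMeasurable
    · rw [norm_mul, Real.norm_eq_abs, abs_abs,
        Real.norm_of_nonneg (ph_nonneg E y)]
      by_cases hy : y ∈ E
      · have h1 := hs hy
        refine mul_le_mul_of_nonneg_right ?_ (ph_nonneg E y)
        rw [abs_le]
        constructor <;> linarith [h1.1, h1.2, hc.1, hc.2]
      · have : ph E y = 0 := indicator_of_notMem hy _
        change |y - c| * ph E y ≤ (b - a) * ph E y
        rw [this]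
        simp
  have hMpos : 0 < M := by
    rw [hM, integral_pos_iff_support_of_nonneg
      (fun y => mul_nonneg (abs_nonneg _) (ph_nonneg E y)) hMi]
    have h1 : E \ {c} ⊆ Function.support fun y => |y - c| * ph E y := by
      rintro y ⟨hy, hyc⟩
      rw [Function.mem_support, ph, indicator_of_mem hy, mul_one]
      exact abs_ne_zero.2 (sub_ne_zero.2 hyc)
    have h2 : volume (E \ {c}) = volume E := measure_sdiff_null (by simp)
    refine lt_of_lt_of_le ?_ (measure_mono h1)
    rw [h2]
    exact pos_iff_ne_zero.2 hE0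
  have hval : ∀ x, x ∉ Icc a b → ∀ R, |x| ≤ R →
      M / (R + |a| + |b|) ^ 2 / Real.pi ≤ ‖hilbert f x‖ := by
    intro x hx R hR
    obtain ⟨δ, hδ, hδE⟩ : ∃ δ : ℝ, 0 < δ ∧ ∀ y ∈ E, δ ≤ |x - y| := by
      rw [mem_Icc, not_and_or, not_le, not_le] at hx
      rcases hx with h | h
      · refine ⟨a - x, by linarith, fun y hy => ?_⟩
        have := (hs hy).1
        rw [abs_of_neg (by linarith)]
        linarith
      · refine ⟨x - b, by linarith, fun y hy => ?_⟩
        have := (hs hy).2
        rw [abs_of_pos (by linarith)]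
        linarith
    have hsign : ∀ y ∈ E, 0 < (x - y) * (x - c) := by
      intro y hy
      have h1 := hs hy
      rw [mem_Icc, not_and_or, not_le, not_le] at hx
      rcases hx with h | h
      · exact mul_pos_of_neg_of_neg (by linarith [h1.1]) (by linarith [hc.1])
      · exact mul_pos (by linarith [h1.2]) (by linarith [hc.2])
    have hxc : x - c ≠ 0 := by
      intro h
      apply hx
      have : x = c := by linarith
      rw [this]
      exact hc
    have hD : ∀ y ∈ Icc a b, |x - y| ≤ R + |a| + |b| := by
      intro y hy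
      have h1 := neg_abs_le a
      have h2 := le_abs_self b
      have h3 := abs_le.1 hR
      have h4 := abs_nonneg a
      have h5 := abs_nonneg b
      rw [abs_le]
      constructor <;> linarith [hy.1, hy.2]
    set D : ℝ := R + |a| + |b| with hDdef
    have hval := hil_eq (has_of_zero (f := f) (x := x) hδ fun y hy => by
      by_contra hne
      have : y ∈ E := by
        by_contra hyE
        exact hne (by simp [hf, hfrz y hyE])
      exact absurd hy (not_lt.2 (hδE y this)))
    set h : ℝ → ℝ := fun y => |y - c| * ph E y / ((x - y) * (x - c)) with hh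
    have hhi : Integrable h := by
      refine (hMi.div_const (δ * |x - c|)).mono' ?_ (ae_of_all _ fun y => ?_)
      · refine (hMi.aestronglyMeasurable.aemeasurable.div ?_).aestronglyMeasurable
        fun_prop
      · by_cases hy : y ∈ E
        · have h1 := hδE y hy
          rw [hh]
          simp only
          rw [norm_div, norm_mul, norm_mul, Real.norm_eq_abs, abs_abs,
            Real.norm_of_nonneg (ph_nonneg E y), Real.norm_eq_abs, Real.norm_eq_abs]
          have h2 : 0 < |x - c| := abs_pos.2 hxc
          refine div_le_div_of_nonneg_left (mul_nonneg (abs_nonneg _) (ph_nonneg E y))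
            (by positivity) ?_
          exact mul_le_mul_of_nonneg_right h1 h2.le
        · have : ph E y = 0 := indicator_of_notMem hy _
          simp [hh, this]
    have key : ∫ y, fr y / (x - y) = - ∫ y, h y := by
      have e1 : ∀ y, fr y / (x - y) = fr y / (x - c) - h y := by
        intro y
        by_cases hy : y ∈ E
        · have h1 : x - y ≠ 0 := by
            intro h1
            have := hδE y hy
            rw [h1, abs_zero] at this
            linarith
          have h2 := hfrm y
          simp only [hh]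
          field_simp
          linear_combination h2
        · have : ph E y = 0 := indicator_of_notMem hy _
          simp [hh, this, hfrz y hy]
      simp_rw [e1]
      rw [integral_sub (hfri.div_const _) hhi, integral_div, hfr0]
      simp
    have hI : ∫ y, f y / ((x : ℂ) - (y : ℂ)) = ((- ∫ y, h y : ℝ) : ℂ) := by
      rw [← key, ← integral_complex_ofReal]
      refine integral_congr_ae (ae_of_all _ fun y => ?_)
      simp [hf]
    have hDpos : 0 < D ^ 2 := by
      have h1 := hD c hc
      have h2 : 0 < |x - c| := abs_pos.2 hxc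
      have : 0 < D := by linarith
      positivity
    have low : M / D ^ 2 ≤ ∫ y, h y := by
      rw [hM, ← integral_div]
      refine integral_mono (hMi.div_const _) hhi fun y => ?_
      by_cases hy : y ∈ E
      · refine div_le_div_of_nonneg_left (mul_nonneg (abs_nonneg _) (ph_nonneg E y))
          (hsign y hy) ?_
        have h1 := hD y ⟨(hs hy).1.le, (hs hy).2.le⟩
        have h2 := hD c hc
        calc (x - y) * (x - c) ≤ |(x - y) * (x - c)| := le_abs_self _
          _ = |x - y| * |x - c| := abs_mul _ _
          _ ≤ D * D := mul_le_mul h1 h2 (abs_nonneg _) ((abs_nonneg _).trans h1)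
          _ = D ^ 2 := by ring
      · have : ph E y = 0 := indicator_of_notMem hy _
        simp [hh, this]
    have hpos : 0 ≤ ∫ y, h y := le_trans (by positivity) low
    rw [hval, hI, norm_mul, norm_div, norm_one, Complex.norm_real, Complex.norm_real, norm_neg,
      Real.norm_of_nonneg Real.pi_pos.le, Real.norm_of_nonneg hpos]
    rw [one_div, ← div_eq_inv_mul]
    exact div_le_div_of_nonneg_right low Real.pi_pos.le
  have hR : ∀ N : ℕ, ∀ᵐ x, x ∉ Icc a b → |x| ≤ N → U x = 0 := by
    intro N
    set S : Set ℝ := (Icc a b)ᶜ ∩ {x | |x| ≤ N} with hS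
    have hSm : MeasurableSet S :=
      measurableSet_Icc.compl.inter (isClosed_le continuous_abs continuous_const).measurableSet
    set κ : ℝ := M / ((N : ℝ) + |a| + |b|) ^ 2 / Real.pi with hκ
    by_cases hN : (N : ℝ) + |a| + |b| = 0
    · have h1 : (N : ℝ) = 0 := by
        have := abs_nonneg a
        have := abs_nonneg b
        have : (0 : ℝ) ≤ N := Nat.cast_nonneg N
        linarith
      have h2 : ∀ᵐ x : ℝ, x ≠ 0 := by
        rw [ae_iff]
        simp
      filter_upwards [h2] with x hx _ hx2
      rw [h1] at hx2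
      exact absurd (abs_nonpos_iff.1 hx2) hx
    have hκ0 : 0 < κ := by
      have : 0 < ((N : ℝ) + |a| + |b|) ^ 2 := by positivity
      have := Real.pi_pos
      positivity
    have h1 : ∫⁻ x in S, ENNReal.ofReal κ ^ p * (U x : ℝ≥0∞) = 0 := by
      refine le_antisymm ?_ zero_le
      calc ∫⁻ x in S, ENNReal.ofReal κ ^ p * (U x : ℝ≥0∞)
          ≤ ∫⁻ x in S, ‖hilbert f x‖ₑ ^ p * (U x : ℝ≥0∞) := by
            refine setLIntegral_mono' hSm fun x hx => ?_
            gcongr
            rw [← ofReal_norm]
            exact ENNReal.ofReal_le_ofReal (hval x hx.1 N hx.2)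
        _ ≤ ∫⁻ x, ‖hilbert f x‖ₑ ^ p * (U x : ℝ≥0∞) := setLIntegral_le_lintegral _ _
        _ = 0 := hlhs
    rw [lintegral_eq_zero_iff (by
      have := hU.meas
      fun_prop)] at h1
    have h2 := (ae_restrict_iff' hSm).1 h1
    filter_upwards [h2] with x hx hx1 hx2
    have h3 := hx ⟨hx1, hx2⟩
    have h4 : ENNReal.ofReal κ ^ p ≠ 0 := by
      rw [Ne, ENNReal.rpow_eq_zero_iff]
      push Not
      refine ⟨fun h => absurd h ?_, fun h => absurd h (by simp)⟩
      simpa using hκ0
    have h5 := (mul_eq_zero.1 h3).resolve_left h4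
    exact_mod_cast h5
  filter_upwards [ae_all_iff.2 hR] with x hx hx1
  obtain ⟨N, hN⟩ := exists_nat_ge |x|
  exact hx N hx1 hN

theorem main : S_pos := by
  intro p hp U hU hA
  by_contra hcon
  have h0 : volume {x | U x = 0} ≠ 0 := by
    intro h
    apply hcon
    rw [ae_iff]
    simpa using h
  have hUm : MeasurableSet {x | U x = 0} := hU.meas (measurableSet_singleton 0)
  obtain ⟨N, hN⟩ : ∃ N : ℕ, volume ({x | U x = 0} ∩ Ioo (-(N : ℝ)) N) ≠ 0 := by
    by_contra hall
    push Not at hall
    apply h0
    have e : {x | U x = 0} = ⋃ N : ℕ, ({x | U x = 0} ∩ Ioo (-(N : ℝ)) N) := by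
      rw [← inter_iUnion]
      symm
      refine inter_eq_left.2 fun x _ => ?_
      obtain ⟨N, hN⟩ := exists_nat_gt |x|
      exact mem_iUnion.2 ⟨N, abs_lt.1 hN⟩
    rw [e]
    exact measure_iUnion_null hall
  set E : Set ℝ := {x | U x = 0} ∩ Ioo (-(N : ℝ)) N with hE
  have hEm : MeasurableSet E := hUm.inter measurableSet_Ioo
  have hEs : E ⊆ Ioo (-(N : ℝ)) N := inter_subset_right
  have hN0 : (0 : ℝ) ≤ N := Nat.cast_nonneg N
  obtain ⟨c, hc, hc2⟩ := half hEm (by linarith : -(N : ℝ) ≤ N) hEs
  have hi := ph_int hEm hEs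
  have hfin : ∀ S : Set ℝ, volume (E ∩ S) ≠ ⊤ := fun S =>
    ne_top_of_le_ne_top (by simp) (measure_mono (inter_subset_left.trans hEs))
  have hphS : ∀ S : Set ℝ, MeasurableSet S → ∫ y in S, ph E y = volume.real (E ∩ S) := by
    intro S hS
    rw [ph, integral_indicator hEm, Measure.restrict_restrict hEm, setIntegral_const]
    simp
  have hm : ∫ y, ph E y = volume.real E := by
    rw [ph, integral_indicator hEm, setIntegral_const]
    simp
  have hEr : 0 < volume.real E := by
    have h1 := hfin univ
    rw [inter_univ] at h1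
    exact ENNReal.toReal_pos hN h1
  have h1 : volume.real (E ∩ Iic c) = volume.real E / 2 := by
    rw [← hphS _ measurableSet_Iic, hc2, hm]
  have h2 : volume.real (E ∩ Ioi c) = volume.real E / 2 := by
    have h3 := integral_add_compl (f := ph E) (measurableSet_Iic (a := c)) hi
    rw [compl_Iic, hphS _ measurableSet_Iic, hphS _ measurableSet_Ioi, hm, h1] at h3
    linarith
  have h1' : volume (E ∩ Iio c) ≠ 0 := by
    intro h
    have h3 : volume (E ∩ Iic c) ≤ volume (E ∩ Iio c) + volume {c} := by
      refine (measure_mono ?_).trans (measure_union_le _ _)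
      rintro x ⟨hx, hx2⟩
      rcases (show x ≤ c from hx2).lt_or_eq with h4 | h4
      · exact Or.inl ⟨hx, h4⟩
      · exact Or.inr h4
    rw [h, Real.volume_singleton, add_zero] at h3
    have h4 : volume (E ∩ Iic c) = 0 := le_antisymm h3 zero_le
    rw [measureReal_def, h4] at h1
    simp at h1
    linarith
  have h2' : volume (E ∩ Ioi c) ≠ 0 := by
    intro h
    rw [measureReal_def, h] at h2
    simp at h2
    linarith
  have a1 := out hp hU hA hc.1 (hEm.inter measurableSet_Iio)
    (fun x hx => ⟨(hEs hx.1).1, hx.2⟩) h1' (fun x hx => hx.1.1)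
  have a2 := out hp hU hA hc.2 (hEm.inter measurableSet_Ioi)
    (fun x hx => ⟨hx.2, (hEs hx.1).2⟩) h2' (fun x hx => hx.1.1)
  have a3 : ∀ᵐ x : ℝ, x ≠ c := by
    rw [ae_iff]
    simp
  apply hU.ne
  filter_upwards [a1, a2, a3] with x hx1 hx2 hx3
  rcases lt_or_gt_of_ne hx3 with h | h
  · exact hx2 fun h4 => absurd h4.1 (not_le.2 h)
  · exact hx1 fun h4 => absurd h4.2 (not_le.2 h)

end Pool.Agent.U464.HW
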